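import Mathlib
import Pool.Agent.R437.Met.AF4
import Pool.Agent.Results.MP_c59389_nt.AllEllipticCurves

/-!
# Frey's inequality for all elliptic curves whose invariants approximate a given number, in all fields

`NearAll n τ C ξ` is the set of all `(K, j, σ)`, where `K` is any number field of degree `n` (in the
algebraic closure of `ℚ`), `j` an element of `K` and `σ` an embedding of `K` into `Λ`, such that the
distance of `ξ` and `σ(j)` is at most `C H(j) ^ (-τ)`, where `H(j)` is the absolute height. There is no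
condition on the field.

`FreyAt κ c j` is Frey's inequality `h_F(A) ≤ κ log N + c` for the Weil restrictions
`A = Res_{K/ℚ} E`, of dimension `n = [K : ℚ]`, of all elliptic curves `E` over `K` of invariant `j`,
where `N = |D_K| ^ 2 * badNorm E` is a divisor of the conductor of `A` and `h_F` the stable Faltings
height. Frey asks for this inequality with the slope `κ = n / 2 + ε`.
-/

set_option autoImplicit false

namespace Pool.Agent.R437.Var.FreyAF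

open NumberField Height MeasureTheory Filter
open Pool.Agent.R437.Met.AF
open Pool.Agent.Results.MP_c59389_nt.AllEllipticCurves
  (faltings IsPeriod badNorm Violators expo Family)
open scoped ENNReal NNReal

/-- Frey's inequality with slope `κ` and constant `c` for the Weil restrictions to `ℚ` of all
elliptic curves over `K` of invariant `j` -/
def FreyAt (κ c : ℝ) {K : Type} [Field K] [NumberField K] (j : K) : Prop :=
  ∀ (E : WeierstrassCurve K) (τ : InfinitePlace K → UpperHalfPlane), E.Δ ≠ 0 →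
    E.c₄ ^ 3 / E.Δ = j → IsPeriod (E.c₄ ^ 3 / E.Δ) τ →
      (Module.finrank ℚ K : ℝ) * faltings (E.c₄ ^ 3 / E.Δ) τ ≤
        κ * Real.log (badNorm E * |(discr K : ℝ)| ^ 2) + c

theorem log_nonneg {K : Type} [Field K] [NumberField K] (E : WeierstrassCurve K) :
    0 ≤ Real.log (badNorm E * |(discr K : ℝ)| ^ 2) := by
  have hb1 : 1 ≤ badNorm E := Pool.Agent.TH876.TT.Viol_one_le E
  have h1 : (1 : ℤ) ≤ |discr K| := Int.one_le_abs (discr_ne_zero K)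
  have hd1 : (1 : ℝ) ≤ |(discr K : ℝ)| := by exact_mod_cast h1
  refine Real.log_nonneg ?_
  have h2 : (1 : ℝ) ≤ |(discr K : ℝ)| ^ 2 := one_le_pow₀ hd1
  nlinarith

theorem mono {K : Type} [Field K] [NumberField K] {κ κ' c c' : ℝ} (hκ : κ ≤ κ') (hc : c ≤ c')
    {j : K} (h : FreyAt κ c j) : FreyAt κ' c' j := by
  intro E τ hE hj hτ
  have h1 := h E τ hE hj hτ
  have h2 := mul_le_mul_of_nonneg_right hκ (log_nonneg E)
  linarith

/-- the invariants which violate the inequality -/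
def Bad (κ c : ℝ) (K : NF) : Set K.1 := {j | ¬ FreyAt κ c j}

theorem pair_count {n : ℕ} (hn : 1 ≤ n) {κ c a : ℝ}
    (H : ∀ δ : ℝ, 0 < δ → ∃ M : ℝ, ∀ B : ℝ, 1 ≤ B → (Violators n κ c B).Finite ∧
          ((Violators n κ c B).ncard : ℝ) ≤ M * B ^ (a + δ)) (ε : ℝ) (hε : 0 < ε) :
    ∃ C : ℝ, ∀ B : ℝ, 1 ≤ B →
      {q : Σ K : NF, K.1 | Module.finrank ℚ q.1.1 = n ∧ q.2 ∈ Bad κ c q.1 ∧
        logHeight₁ q.2 ≤ n * Real.log B}.Finite ∧
      (({q : Σ K : NF, K.1 | Module.finrank ℚ q.1.1 = n ∧ q.2 ∈ Bad κ c q.1 ∧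
        logHeight₁ q.2 ≤ n * Real.log B}.ncard : ℕ) : ℝ) ≤ C * B ^ (n * a / 12 + ε) := by
  have hn0 : (0 : ℝ) < n := by exact_mod_cast hn
  obtain ⟨c₁, hc₁, hf⟩ := Pool.Agent.Y729.FW.fal_two
  obtain ⟨M, hM⟩ := H (12 * ε / n) (by positivity)
  set W : ℝ := Real.exp (c₁ * n / 12) with hW
  have hW1 : 1 ≤ W := Real.one_le_exp (by positivity)
  have hW0 : 0 < W := by linarith
  refine ⟨M * W ^ (a + 12 * ε / n), fun B hB => ?_⟩
  have hB0 : 0 < B := by linarith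
  have hBn : 1 ≤ B ^ ((n : ℝ) / 12) := Real.one_le_rpow hB (by positivity)
  have hX1 : 1 ≤ W * B ^ ((n : ℝ) / 12) := by nlinarith
  obtain ⟨hfin, hcard⟩ := hM _ hX1
  set f : (Σ K : NF, K.1) → IntermediateField ℚ (AlgebraicClosure ℚ) × AlgebraicClosure ℚ :=
    fun q => (q.1.1, (q.2 : AlgebraicClosure ℚ)) with hfdef
  have hinj : Function.Injective f := by
    rintro ⟨⟨K, hK⟩, x⟩ ⟨⟨K', hK'⟩, x'⟩ h
    rw [hfdef, Prod.mk.injEq] at h
    obtain ⟨h1, h2⟩ := h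
    dsimp only at h1 h2
    subst h1
    have h3 : x = x' := Subtype.ext h2
    subst h3
    rfl
  set S : Set (Σ K : NF, K.1) := {q : Σ K : NF, K.1 | Module.finrank ℚ q.1.1 = n ∧
    q.2 ∈ Bad κ c q.1 ∧ logHeight₁ q.2 ≤ n * Real.log B} with hS
  have himg : f '' S ⊆ Violators n κ c (W * B ^ ((n : ℝ) / 12)) := by
    rintro _ ⟨⟨K, j⟩, ⟨h1, h2, h3⟩, rfl⟩
    have h2' : ¬ FreyAt κ c j := h2
    unfold FreyAt at h2'
    push Not at h2'
    obtain ⟨E, τ, hE, hj, hτ, hlt⟩ := h2'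
    dsimp only at h1 h3
    rw [h1] at hlt
    refine ⟨K.2, E, τ, h1, hE, ?_, hτ, ?_, ?_⟩
    · show ((E.c₄ ^ 3 / E.Δ : K.1) : AlgebraicClosure ℚ) = (j : AlgebraicClosure ℚ)
      rw [hj]
    · have h4 : 12 * (Module.finrank ℚ K.1 : ℝ) * faltings (E.c₄ ^ 3 / E.Δ) τ ≤
          logHeight₁ (E.c₄ ^ 3 / E.Δ) + c₁ * Module.finrank ℚ K.1 := hf K.1 _ τ hτ
      rw [hj] at h4
      rw [h1] at h4
      rw [hj, Real.log_mul hW0.ne' (by positivity), hW, Real.log_exp, Real.log_rpow hB0]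
      linarith
    · exact hlt
  have hSf : S.Finite := Set.Finite.of_finite_image (hfin.subset himg) hinj.injOn
  refine ⟨hSf, ?_⟩
  have h5 : (S.ncard : ℝ) ≤ ((Violators n κ c (W * B ^ ((n : ℝ) / 12))).ncard : ℝ) := by
    rw [← Set.ncard_image_of_injective S hinj]
    exact_mod_cast Set.ncard_le_ncard himg hfin
  refine h5.trans (hcard.trans (le_of_eq ?_))
  rw [Real.mul_rpow hW0.le (Real.rpow_nonneg hB0.le _), ← Real.rpow_mul hB0.le, mul_assoc]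
  congr 3
  field_simp

/-- the numbers with infinitely many approximations which violate the inequality -/
def BadPts (Λ : Type) [Field Λ] [MetricSpace Λ] (n : ℕ) (κ τ : ℝ) : Set Λ :=
  {ξ | ∃ c C : ℝ, {p | p ∈ NearAll n τ C ξ ∧ ¬ FreyAt κ c p.2.1}.Infinite}

theorem badPts_mono (Λ : Type) [Field Λ] [MetricSpace Λ] {n : ℕ} {κ κ' τ τ' : ℝ} (hκ : κ' ≤ κ)
    (hτ : τ' ≤ τ) : BadPts Λ n κ τ ⊆ BadPts Λ n κ' τ' := by
  rintro ξ ⟨c, C, h⟩
  refine ⟨c, |C|, h.mono ?_⟩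
  rintro p ⟨h1, h2⟩
  exact ⟨nearAll_mono hτ (le_abs_self C) (abs_nonneg C) ξ h1, fun h3 => h2 (mono hκ le_rfl h3)⟩

theorem dim_badPts (Λ : Type) [Field Λ] [CharZero Λ] [MetricSpace Λ] {n : ℕ} (hn : 1 ≤ n)
    {κ τ a : ℝ} (hκ : 0 < κ) (ha : 0 ≤ a) (hτ : 0 < τ)
    (H : ∀ c δ : ℝ, 0 < δ → ∃ M : ℝ, ∀ B : ℝ, 1 ≤ B → (Violators n κ c B).Finite ∧
          ((Violators n κ c B).ncard : ℝ) ≤ M * B ^ (a / κ + δ)) :
    dimH (BadPts Λ n κ τ) ≤ ENNReal.ofReal (n * a / (12 * κ * τ)) := by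
  have h1 : BadPts Λ n κ τ ⊆ ⋃ m : ℕ,
      {ξ : Λ | ∃ C : ℝ, {p | p ∈ NearAll n τ C ξ ∧ p.2.1 ∈ Bad κ (-(m : ℝ)) p.1}.Infinite} := by
    rintro ξ ⟨c, C, h⟩
    obtain ⟨m, hm⟩ := exists_nat_ge (-c)
    refine Set.mem_iUnion.2 ⟨m, C, h.mono ?_⟩
    rintro p ⟨h1, h2⟩
    exact ⟨h1, fun h3 => h2 (mono le_rfl (by linarith) h3)⟩
  refine (dimH_mono h1).trans ?_
  rw [dimH_iUnion]
  refine iSup_le fun m => ?_
  refine (dim_all (Λ := Λ) (Bad κ (-(m : ℝ))) (n := n) (s := n * (a / κ) / 12) (τ := τ)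
    (by positivity) hτ (fun ε hε => pair_count hn (H _) ε hε) hn).trans (le_of_eq ?_)
  congr 1
  field_simp

/-- the numbers for which there is no such inequality at all, for some `n` and `τ` -/
def WeakBad (Λ : Type) [Field Λ] [MetricSpace Λ] : Set Λ :=
  {ξ | ∃ (n : ℕ) (τ : ℝ), 1 ≤ n ∧ 0 < τ ∧ ∀ κ c : ℝ, ∃ p ∈ NearAll n τ 1 ξ, ¬ FreyAt κ c p.2.1}

theorem dim_weak (Λ : Type) [Field Λ] [CharZero Λ] [MetricSpace Λ] {a : ℕ → ℝ} (ha : ∀ n, 0 ≤ a n)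
    (H : ∀ n : ℕ, 1 ≤ n → ∀ κ c δ : ℝ, 0 < κ → 0 < δ → ∃ M : ℝ, ∀ B : ℝ, 1 ≤ B →
      (Violators n κ c B).Finite ∧ ((Violators n κ c B).ncard : ℝ) ≤ M * B ^ (a n / κ + δ)) :
    dimH (WeakBad Λ) = 0 := by
  have h1 : WeakBad Λ ⊆ ⋃ n : ℕ, ⋃ m : ℕ, ⋂ k : ℕ,
      BadPts Λ (n + 1) ((k : ℝ) + 1) (1 / ((m : ℝ) + 1)) := by
    rintro ξ ⟨n, τ, hn, hτ, h⟩
    obtain ⟨n', rfl⟩ : ∃ n', n = n' + 1 := ⟨n - 1, by omega⟩
    obtain ⟨m, hm⟩ := exists_nat_one_div_lt hτ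
    refine Set.mem_iUnion.2 ⟨n', Set.mem_iUnion.2 ⟨m, Set.mem_iInter.2 fun k => ?_⟩⟩
    refine ⟨0, 1, fun hfin => ?_⟩
    obtain ⟨c₁, hc₁, hf⟩ := Pool.Agent.Y729.FW.fal_two
    obtain ⟨D, hD⟩ := (hfin.image ht).bddAbove
    obtain ⟨p, hp1, hp2⟩ := h ((k : ℝ) + 1) (max (((n' + 1 : ℕ) : ℝ) * (D + c₁) / 12) 0)
    have hp3 : ht p ≤ D := hD ⟨p, ⟨nearAll_mono hm.le le_rfl zero_le_one ξ hp1,
      fun h3 => hp2 (mono le_rfl (le_max_right _ _) h3)⟩, rfl⟩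
    apply hp2
    intro E τ' hE hj hτ'
    have h4 : 12 * (Module.finrank ℚ p.1.1 : ℝ) * faltings (E.c₄ ^ 3 / E.Δ) τ' ≤
        logHeight₁ (E.c₄ ^ 3 / E.Δ) + c₁ * Module.finrank ℚ p.1.1 := hf p.1.1 _ τ' hτ'
    have hfr : Module.finrank ℚ p.1.1 = n' + 1 := hp1.1
    rw [hj] at h4
    have hn1 : (0 : ℝ) < ((n' + 1 : ℕ) : ℝ) := by positivity
    unfold ht at hp3
    rw [hfr, div_le_iff₀ hn1] at hp3
    rw [hfr] at h4 ⊢
    rw [hj]
    have h5 : 0 ≤ ((k : ℝ) + 1) * Real.log (badNorm E * |(discr p.1.1 : ℝ)| ^ 2) :=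
      mul_nonneg (by positivity) (log_nonneg E)
    have h6 := le_max_left (((n' + 1 : ℕ) : ℝ) * (D + c₁) / 12) 0
    linarith
  refine le_antisymm ((dimH_mono h1).trans ?_) bot_le
  rw [dimH_iUnion]
  refine iSup_le fun n => ?_
  rw [dimH_iUnion]
  refine iSup_le fun m => ?_
  set b : ℝ := ((n + 1 : ℕ) : ℝ) * a (n + 1) / 12 * ((m : ℝ) + 1) with hb
  have hlim : Tendsto (fun k : ℕ => ENNReal.ofReal (1 / ((k : ℝ) + 1) * b)) atTop
      (nhds (ENNReal.ofReal (0 * b))) :=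
    ENNReal.tendsto_ofReal (tendsto_one_div_add_atTop_nhds_zero_nat.mul_const b)
  rw [zero_mul, ENNReal.ofReal_zero] at hlim
  refine ge_of_tendsto' hlim fun k => ?_
  refine (dimH_mono (Set.iInter_subset _ k)).trans ?_
  refine (dim_badPts Λ (n := n + 1) (by omega) (κ := (k : ℝ) + 1) (a := a (n + 1))
    (τ := 1 / ((m : ℝ) + 1)) (by positivity) (ha _) (by positivity)
    (fun c δ hδ => H (n + 1) (by omega) _ c δ (by positivity) hδ)).trans (le_of_eq ?_)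
  congr 1
  rw [hb]
  field_simp

theorem ae_aux {a : ℕ → ℝ} (ha : ∀ n, 0 ≤ a n)
    (H : ∀ n : ℕ, 1 ≤ n → ∀ κ c δ : ℝ, 0 < κ → 0 < δ → ∃ M : ℝ, ∀ B : ℝ, 1 ≤ B →
      (Violators n κ c B).Finite ∧ ((Violators n κ c B).ncard : ℝ) ≤ M * B ^ (a n / κ + δ)) :
    ∀ᵐ ξ : ℝ, ∀ (n : ℕ) (κ τ c C : ℝ), 1 ≤ n → 0 < κ → n * a n < 12 * (κ * τ) →
      {p | p ∈ NearAll n τ C ξ ∧ ¬ FreyAt κ c p.2.1}.Finite := by
  have h1 : ∀ (n : ℕ) (x y : ℚ), 1 ≤ n → 0 < x → 0 < y → n * a n < 12 * ((x : ℝ) * y) →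
      volume (BadPts ℝ n x y) = 0 := by
    intro n x y hn hx hy hxy
    have hx' : (0 : ℝ) < x := by exact_mod_cast hx
    have hy' : (0 : ℝ) < y := by exact_mod_cast hy
    refine null_real (lt_of_le_of_lt (dim_badPts ℝ hn hx' (ha n) hy'
      (fun c δ hδ => H n hn _ c δ hx' hδ)) ?_)
    rw [← ENNReal.ofReal_one, ENNReal.ofReal_lt_ofReal_iff one_pos, div_lt_one (by positivity)]
    linarith
  have h2 : ∀ᵐ ξ : ℝ, ∀ (n : ℕ) (x y : ℚ), 1 ≤ n → 0 < x → 0 < y →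
      n * a n < 12 * ((x : ℝ) * y) → ξ ∉ BadPts ℝ n x y := by
    rw [ae_all_iff]
    intro n
    rw [ae_all_iff]
    intro x
    rw [ae_all_iff]
    intro y
    by_cases h : 1 ≤ n ∧ 0 < x ∧ 0 < y ∧ n * a n < 12 * ((x : ℝ) * y)
    · obtain ⟨hn, hx, hy, hxy⟩ := h
      have h3 : ∀ᵐ ξ : ℝ, ξ ∉ BadPts ℝ n x y := by
        rw [ae_iff]
        simpa using h1 n x y hn hx hy hxy
      filter_upwards [h3] with ξ hξ
      exact fun _ _ _ _ => hξ
    · refine Filter.Eventually.of_forall fun ξ hn hx hy hxy => ?_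
      exact absurd ⟨hn, hx, hy, hxy⟩ h
  filter_upwards [h2] with ξ hξ
  intro n κ τ c C hn hκ hlt
  by_contra hinf
  have hne : 0 ≤ (n : ℝ) * a n := mul_nonneg (Nat.cast_nonneg _) (ha n)
  have hτ : 0 < τ := by
    by_contra hcon
    push Not at hcon
    have : κ * τ ≤ 0 := mul_nonpos_of_nonneg_of_nonpos hκ.le hcon
    linarith
  have hb : (n : ℝ) * a n / (12 * κ) < τ := by
    rw [div_lt_iff₀ (by positivity)]
    linarith
  obtain ⟨y, hb1, hb2⟩ := exists_rat_btwn (max_lt hb hτ)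
  have hb0 : (0 : ℝ) < y := lt_of_le_of_lt (le_max_right _ _) hb1
  have hb3 : (n : ℝ) * a n / (12 * κ) < y := lt_of_le_of_lt (le_max_left _ _) hb1
  have ha' : (n : ℝ) * a n / (12 * y) < κ := by
    rw [div_lt_iff₀ (by positivity)] at hb3 ⊢
    linarith
  obtain ⟨x, ha1, ha2⟩ := exists_rat_btwn (max_lt ha' hκ)
  have ha0 : (0 : ℝ) < x := lt_of_le_of_lt (le_max_right _ _) ha1
  have ha3 : (n : ℝ) * a n / (12 * y) < x := lt_of_le_of_lt (le_max_left _ _) ha1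
  refine hξ n x y hn (by exact_mod_cast ha0) (by exact_mod_cast hb0) ?_
    (badPts_mono ℝ ha2.le hb2.le ⟨c, C, hinf⟩)
  rw [div_lt_iff₀ (by positivity)] at ha3
  linarith

/-- **Theorem.** There is `a : ℕ → ℝ`, `a ≥ 0`, with `a 1 = 5 / 2`,
`a n ≤ max (5 / 2) (15 / 8 + expo n / 2)` for `n ≥ 2` (so `a 2, a 3 ≤ 5 / 2`) and
`a n = O(log ^ 2 n)`, such that:
(1) for every field `Λ` of characteristic zero with a metric (such as `ℝ`, `ℂ`, `ℚ_p`), all `n ≥ 1`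
and `κ, τ > 0` and all `ξ` in `Λ` outside a set of Hausdorff dimension at most
`n a(n) / (12 κ τ)`: for all `c`, `C`, all but finitely many `(K, j, σ)` in `NearAll n τ C ξ`, in ALL
number fields `K` of degree `n`, satisfy `h_F(A) ≤ κ log N + c` for the Weil restrictions
`A = Res_{K/ℚ} E` of all elliptic curves `E` over `K` of invariant `j`;
(2) for almost every real `ξ` this holds for all `n ≥ 1`, `κ > 0`, `τ`, `c`, `C` with
`n a(n) < 12 κ τ`.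
(3) For all `ξ` in `Λ` outside a set of Hausdorff dimension zero, all `n ≥ 1` and `τ > 0` there are
`κ` and `c` such that `h_F(A) ≤ κ log N + c` for the Weil restrictions of all elliptic curves over `K`
of invariant `j`, for ALL `(K, j, σ)` in `NearAll n τ 1 ξ`.
(4) For every number field `K` of degree `n`, every embedding `σ` of `K` into the real numbers, every
`τ < 2 n` and every real `ξ` not in `σ(K)` there are infinitely many `j` in `K` with `(K, j, σ)` in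
`NearAll n τ 1 ξ`. -/
theorem result :
    (∃ a : ℕ → ℝ, (∀ n, 0 ≤ a n) ∧
      (∀ c : ℝ, 1 / (16 * (Real.log 2) ^ 2) < c →
        ∀ᶠ n : ℕ in Filter.atTop, a n ≤ c * (Real.log n) ^ 2) ∧
      a 1 = 5 / 2 ∧ (∀ n : ℕ, 2 ≤ n → a n ≤ max (5 / 2) (15 / 8 + expo n / 2)) ∧
      (∀ (Λ : Type) [Field Λ] [CharZero Λ] [MetricSpace Λ] (n : ℕ) (κ τ : ℝ),
        1 ≤ n → 0 < κ → 0 < τ →
          dimH {ξ : Λ | ∃ c C : ℝ, {p | p ∈ NearAll n τ C ξ ∧ ¬ FreyAt κ c p.2.1}.Infinite} ≤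
            ENNReal.ofReal (n * a n / (12 * κ * τ))) ∧
      (∀ᵐ ξ : ℝ, ∀ (n : ℕ) (κ τ c C : ℝ), 1 ≤ n → 0 < κ → n * a n < 12 * (κ * τ) →
        {p | p ∈ NearAll n τ C ξ ∧ ¬ FreyAt κ c p.2.1}.Finite)) ∧
    (∀ (Λ : Type) [Field Λ] [CharZero Λ] [MetricSpace Λ], ∃ E : Set Λ, dimH E = 0 ∧
      ∀ ξ : Λ, ξ ∉ E → ∀ (n : ℕ) (τ : ℝ), 1 ≤ n → 0 < τ → ∃ κ c : ℝ,
        ∀ p ∈ NearAll n τ 1 ξ, FreyAt κ c p.2.1) ∧
    (∀ (K : NF) (σ : K.1 →+* ℝ) (τ : ℝ), τ < 2 * (Module.finrank ℚ K.1 : ℝ) →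
      ∀ ξ : ℝ, ξ ∉ Set.range σ →
        {j : K.1 | (⟨K, j, σ⟩ : Pt ℝ) ∈ NearAll (Module.finrank ℚ K.1) τ 1 ξ}.Infinite) := by
  obtain ⟨⟨a₀, ha1, ha2, ha3, ha4⟩, -⟩ := AllEllipticCurves.result
  have hexpo : ∀ n : ℕ, 0 ≤ expo n := fun n => by
    unfold AllEllipticCurves.expo
    positivity
  set a : ℕ → ℝ := fun n => max (a₀ n) 0 with ha
  have ha0 : ∀ n, 0 ≤ a n := fun n => le_max_right _ _
  have H : ∀ n : ℕ, 1 ≤ n → ∀ κ c δ : ℝ, 0 < κ → 0 < δ → ∃ M : ℝ, ∀ B : ℝ, 1 ≤ B →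
      (Violators n κ c B).Finite ∧
        ((Violators n κ c B).ncard : ℝ) ≤ M * B ^ (a n / κ + δ) := by
    intro n hn κ c δ hκ hδ
    obtain ⟨M, hM⟩ := ha4 n hn κ c δ hκ hδ
    refine ⟨|M|, fun B hB => ⟨(hM B hB).1, (hM B hB).2.trans ?_⟩⟩
    have hB0 : 0 < B := by linarith
    refine (mul_le_mul_of_nonneg_right (le_abs_self M) (Real.rpow_nonneg hB0.le _)).trans ?_
    refine mul_le_mul_of_nonneg_left ?_ (abs_nonneg M)
    refine Real.rpow_le_rpow_of_exponent_le hB ?_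
    have h1 : a₀ n / κ ≤ a n / κ := div_le_div_of_nonneg_right (le_max_left _ _) hκ.le
    linarith
  refine ⟨⟨a, ha0, fun c hc => ?_, ?_, fun n hn => max_le (ha3 n hn) ?_,
    fun Λ _ _ _ n κ τ hn hκ hτ => dim_badPts Λ hn hκ (ha0 n) hτ (fun c δ hδ => H n hn κ c δ hκ hδ),
    ae_aux ha0 H⟩, fun Λ _ _ _ => ⟨WeakBad Λ, dim_weak Λ ha0 H, ?_⟩, ?_⟩
  · have hc0 : 0 < c := lt_trans (by
      have := Real.log_pos (by norm_num : (1 : ℝ) < 2)
      positivity) hc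
    filter_upwards [ha1 c hc] with n hn
    exact max_le hn (by positivity)
  · rw [ha]
    dsimp only
    rw [ha2]
    norm_num
  · exact le_max_of_le_left (by norm_num)
  · intro ξ hξ n τ hn hτ
    by_contra hcon
    push Not at hcon
    exact hξ ⟨n, τ, hn, hτ, hcon⟩
  · intro K σ τ hτ ξ hξ
    refine (infinite_nearAll K σ hτ hξ (E := ∅) Set.finite_empty).mono ?_
    rintro j ⟨-, hj2⟩
    exact hj2

end Pool.Agent.R437.Var.FreyAF
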